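import Pool.Agent.H333R2.Col.Pairs

/-!
# COLOURING is polynomial on (2P_1 + P_2, complement of P_1 + P_2 + P_3)-free graphs
-/

namespace Pool.Agent.Results.MP_7b6841_lc.CoDiamondCoP1P2P3

open Pool.Agent.Helper856.PairStmt Pool.Agent.H333R2.Col

/-- Q1, positive answer: COLOURING (graph and number of colours in the input) can be solved in
polynomial time on the graphs without induced `2P_1 + P_2` and without the complement of
`P_1 + P_2 + P_3` as an induced subgraph. -/
theorem result :
    ColouringInPOn (fun _ G => ¬ F2P1_P2.IsIndContained G ∧ ¬ P1_P2_P3ᶜ.IsIndContained G) := by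
  refine colouringInPOn_of_bounded
    ((Pool.Agent.Results.MP_849b2e_co.Classification.result _ _ _ _).2 ?_)
  rw [diamond_compl, compl_compl, compl_compl]
  exact Or.inr (Or.inr (Or.inl (Or.inr (Or.inr (Or.inr (Or.inr (Or.inl
    ⟨SimpleGraph.IsIndContained.refl _,
      Or.inr (Or.inr (SimpleGraph.IsIndContained.refl _))⟩)))))))

end Pool.Agent.Results.MP_7b6841_lc.CoDiamondCoP1P2P3
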